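import Pool.Agent.Y546.WQ.Stm

/-!
Project WQ (owner helper546), part HAR: the harmonic half sum and the Fermat quotient of two.
-/

set_option autoImplicit false

namespace Pool.Agent.Y388.WQ.HAR

open Finset Pool.Agent.Y546.WQ

variable {p : ℕ} [hp : Fact p.Prime]

theorem choose_pred (j : ℕ) : j < p → (((p - 1).choose j : ℕ) : ZMod p) = (-1) ^ j := by
  induction j with
  | zero => intro _; simp
  | succ j ih =>
    intro hj
    have h1 := ih (by omega)
    have h2 : p.choose (j + 1) = (p - 1).choose j + (p - 1).choose (j + 1) := by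
      have h3 : p = (p - 1) + 1 := by omega
      conv_lhs => rw [h3]
      rw [Nat.choose_succ_succ]
    have h3 : p ∣ p.choose (j + 1) := hp.out.dvd_choose_self (by omega) hj
    have h4 : ((p.choose (j + 1) : ℕ) : ZMod p) = 0 := (ZMod.natCast_eq_zero_iff _ _).2 h3
    rw [h2, Nat.cast_add, h1] at h4
    rw [pow_succ]
    linear_combination h4

/-- the quotients of the binomial coefficients -/
def cq (p k : ℕ) : ℕ := p.choose k / p

theorem cq_mul {k : ℕ} (h0 : 0 < k) (hk : k < p) : p.choose k = p * cq p k := by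
  unfold cq
  rw [Nat.mul_div_cancel' (hp.out.dvd_choose_self (by omega) hk)]

theorem cq_val {k : ℕ} (h0 : 0 < k) (hk : k < p) :
    (k : ZMod p) * (cq p k : ZMod p) = (-1) ^ (k - 1) := by
  rw [← choose_pred (k - 1) (by omega), ← Nat.cast_mul]
  congr 1
  have h1 := Nat.add_one_mul_choose_eq (p - 1) (k - 1)
  have h2 : p - 1 + 1 = p := by omega
  have h3 : k - 1 + 1 = k := by omega
  rw [h2, h3, cq_mul h0 hk] at h1
  have h4 : p * (k * cq p k) = p * (p - 1).choose (k - 1) := by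
    rw [h1]
    ring
  exact Nat.eq_of_mul_eq_mul_left hp.out.pos h4

theorem sum_cq : 2 ^ p = 2 + p * ∑ k ∈ Ioo 0 p, cq p k := by
  rw [← Nat.sum_range_choose, mul_sum]
  have h1 : ∑ m ∈ range (p + 1), p.choose m = ∑ m ∈ Ioo 0 p, p.choose m + 2 := by
    rw [sum_range_succ, Nat.choose_self, range_eq_Ico, sum_eq_sum_Ico_succ_bot hp.out.pos,
      Nat.choose_zero_right]
    have h2 : Ico (0 + 1) p = Ioo 0 p := by
      ext m
      rw [mem_Ico, mem_Ioo]
      omega
    rw [h2]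
    omega
  rw [h1, add_comm]
  congr 1
  refine sum_congr rfl fun k hk => ?_
  rw [mem_Ioo] at hk
  exact cq_mul hk.1 hk.2

theorem val_pos (u : (ZMod p)ˣ) : 0 < (u : ZMod p).val :=
  Nat.pos_of_ne_zero fun h => u.ne_zero ((ZMod.val_eq_zero _).1 h)

/-- sums over the numbers between `0` and `p` as sums over the units -/
theorem sum_units (f : ℕ → ZMod p) : ∑ k ∈ Ioo 0 p, f k = ∑ u : (ZMod p)ˣ, f (u : ZMod p).val := by
  symm
  refine sum_bij (fun u _ => (u : ZMod p).val) ?_ ?_ ?_ fun _ _ => rfl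
  · intro u _
    exact mem_Ioo.2 ⟨val_pos u, ZMod.val_lt _⟩
  · intro u _ v _ h
    exact Units.ext (ZMod.val_injective p h)
  · intro k hk
    rw [mem_Ioo] at hk
    have h0 : (k : ZMod p) ≠ 0 := by
      rw [Ne, ZMod.natCast_eq_zero_iff]
      intro h
      exact absurd (Nat.le_of_dvd hk.1 h) (by omega)
    exact ⟨Units.mk0 (k : ZMod p) h0, mem_univ _, ZMod.val_cast_of_lt hk.2⟩

theorem main : S_HAR := by
  intro p hp hp2 hhs
  have hodd : p % 2 = 1 := by
    rcases hp.out.eq_two_or_odd with h | h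
    · exact absurd h hp2
    · exact h
  have h20 : (2 : ZMod p) ≠ 0 := by
    have h1 : ((2 : ℕ) : ZMod p) ≠ 0 := by
      rw [Ne, ZMod.natCast_eq_zero_iff]
      intro h
      exact hp2 ((Nat.prime_dvd_prime_iff_eq hp.out Nat.prime_two).1 h)
    exact_mod_cast h1
  -- the sum of all inverses vanishes
  have hall : ∑ t : (ZMod p)ˣ, ((t⁻¹ : (ZMod p)ˣ) : ZMod p) = 0 := by
    have h1 : ∑ t : (ZMod p)ˣ, ((t⁻¹ : (ZMod p)ˣ) : ZMod p) =
        ∑ t : (ZMod p)ˣ, (((-t)⁻¹ : (ZMod p)ˣ) : ZMod p) :=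
      (Equiv.sum_comp (Equiv.neg (ZMod p)ˣ) fun t => ((t⁻¹ : (ZMod p)ˣ) : ZMod p)).symm
    have h2 : ∀ t : (ZMod p)ˣ, (((-t)⁻¹ : (ZMod p)ˣ) : ZMod p) =
        -((t⁻¹ : (ZMod p)ˣ) : ZMod p) := by
      intro t
      rw [inv_neg, Units.val_neg]
    rw [sum_congr rfl fun t _ => h2 t, sum_neg_distrib] at h1
    have h3 : 2 * ∑ t : (ZMod p)ˣ, ((t⁻¹ : (ZMod p)ˣ) : ZMod p) = 0 := by
      linear_combination h1
    exact (mul_eq_zero.1 h3).resolve_left h20
  set two : (ZMod p)ˣ := Units.mk0 2 h20 with htwo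
  have hval2 : ∀ t : (ZMod p)ˣ, ((two * t : (ZMod p)ˣ) : ZMod p).val =
      if p < 2 * (t : ZMod p).val then 2 * (t : ZMod p).val - p else 2 * (t : ZMod p).val := by
    intro t
    have h1 : ((two * t : (ZMod p)ˣ) : ZMod p) = ((2 * (t : ZMod p).val : ℕ) : ZMod p) := by
      rw [Units.val_mul, htwo, Units.val_mk0]
      push_cast
      rw [ZMod.natCast_zmod_val]
    have h2 := ZMod.val_lt (t : ZMod p)
    rw [h1, ZMod.val_natCast]
    split_ifs with h
    · rw [Nat.mod_eq_sub_mod h.le, Nat.mod_eq_of_lt (by omega)]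
    · exact Nat.mod_eq_of_lt (by omega)
  -- the sum of the quotients
  have hsum : ((∑ k ∈ Ioo 0 p, cq p k : ℕ) : ZMod p) = hs p := by
    have h1 : ((∑ k ∈ Ioo 0 p, cq p k : ℕ) : ZMod p) =
        ∑ u : (ZMod p)ˣ, (-1) ^ ((u : ZMod p).val - 1) * ((u⁻¹ : (ZMod p)ˣ) : ZMod p) := by
      rw [Nat.cast_sum, sum_units]
      refine sum_congr rfl fun u _ => ?_
      have h2 := cq_val (p := p) (val_pos u) (ZMod.val_lt (u : ZMod p))
      rw [ZMod.natCast_zmod_val] at h2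
      rw [← h2]
      have h3 : (u : ZMod p) * ((u⁻¹ : (ZMod p)ˣ) : ZMod p) = 1 := Units.mul_inv u
      linear_combination (-(cq p (u : ZMod p).val : ZMod p)) * h3
    rw [h1]
    have h2 : ∑ u : (ZMod p)ˣ, (-1) ^ ((u : ZMod p).val - 1) * ((u⁻¹ : (ZMod p)ˣ) : ZMod p) =
        ∑ t : (ZMod p)ˣ, (-1) ^ (((two * t : (ZMod p)ˣ) : ZMod p).val - 1) *
          (((two * t)⁻¹ : (ZMod p)ˣ) : ZMod p) :=
      (Equiv.sum_comp (Equiv.mulLeft two) fun u : (ZMod p)ˣ =>
        (-1 : ZMod p) ^ ((u : ZMod p).val - 1) * ((u⁻¹ : (ZMod p)ˣ) : ZMod p)).symm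
    rw [h2]
    have h3 : ∀ t : (ZMod p)ˣ, (-1 : ZMod p) ^ (((two * t : (ZMod p)ˣ) : ZMod p).val - 1) *
          (((two * t)⁻¹ : (ZMod p)ˣ) : ZMod p) =
        (if p < 2 * (t : ZMod p).val then ((t⁻¹ : (ZMod p)ˣ) : ZMod p) else 0) -
          (2 : ZMod p)⁻¹ * ((t⁻¹ : (ZMod p)ˣ) : ZMod p) := by
      intro t
      have h4 : (((two * t)⁻¹ : (ZMod p)ˣ) : ZMod p) =
          (2 : ZMod p)⁻¹ * ((t⁻¹ : (ZMod p)ˣ) : ZMod p) := by
        rw [mul_inv, Units.val_mul, htwo, Units.val_inv_eq_inv_val, Units.val_mk0]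
      have h5 := hval2 t
      have h6 := ZMod.val_lt (t : ZMod p)
      have h7 := val_pos t
      rw [h4, h5]
      split_ifs with h
      · have h8 : Even (2 * (t : ZMod p).val - p - 1) := by
          rw [Nat.even_iff]
          omega
        rw [h8.neg_one_pow, one_mul]
        have h9 : (2 : ZMod p) * (2 : ZMod p)⁻¹ = 1 := mul_inv_cancel₀ h20
        linear_combination ((t⁻¹ : (ZMod p)ˣ) : ZMod p) * h9
      · have h8 : Odd (2 * (t : ZMod p).val - 1) := by
          rw [Nat.odd_iff]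
          omega
        rw [h8.neg_one_pow]
        ring
    rw [sum_congr rfl fun t _ => h3 t, sum_sub_distrib, ← mul_sum, hall, mul_zero, sub_zero]
    unfold hs half
    rw [sum_filter]
  rw [hhs, ZMod.natCast_eq_zero_iff] at hsum
  obtain ⟨m, hm⟩ := hsum
  have h1 := sum_cq (p := p)
  rw [hm] at h1
  have h2 : 2 ^ p = 2 * 2 ^ (p - 1) := by
    rw [← pow_succ']
    congr 1
    have := hp.out.pos
    omega
  have h3 : 2 * (2 ^ (p - 1) - 1) = p ^ 2 * m := by
    have h4 : 1 ≤ 2 ^ (p - 1) := Nat.one_le_two_pow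
    rw [h2] at h1
    rw [pow_two, mul_assoc]
    omega
  have h4 : Nat.Coprime (p ^ 2) 2 := by
    apply Nat.Coprime.pow_left
    rw [Nat.coprime_primes hp.out Nat.prime_two]
    exact hp2
  exact h4.dvd_of_dvd_mul_left ⟨m, h3⟩

end Pool.Agent.Y388.WQ.HAR
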