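import Pool.Agent.Y546.WQ.Stm
import Pool.Agent.Y145.DI.Stick

/-!
Project WQ (owner helper546), part JN: the norms of the Jacobi sums `J(T^b, T^b)`.
-/

set_option autoImplicit false

namespace Pool.Agent.Y388.WQ.JN

open Finset Pool.Agent.Y145.DI Pool.Agent.Y546.WQ

theorem two_mul_mod {p : ℕ} (hp : p.Prime) (hp2 : p ≠ 2) (x : ℕ) :
    2 * (x % p) = (2 * x) % p + if p < 2 * (x % p) then p else 0 := by
  have hodd : p % 2 = 1 := by
    rcases hp.eq_two_or_odd with h | h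
    · exact absurd h hp2
    · exact h
  have h1 : (2 * x) % p = (2 * (x % p)) % p := by rw [Nat.mul_mod_mod]
  have h2 := Nat.mod_lt x hp.pos
  rw [h1]
  split_ifs with h
  · have h3 : (2 * (x % p)) % p = 2 * (x % p) - p := by
      rw [Nat.mod_eq_sub_mod h.le, Nat.mod_eq_of_lt (by omega)]
    omega
  · have h3 : (2 * (x % p)) % p = 2 * (x % p) := Nat.mod_eq_of_lt (by omega)
    omega

theorem main : S_JN := by
  intro q _ E _ _ _ _ p F hp hp2 hF hN hF0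
  obtain ⟨w, ψ, hψ, hψc, hw, ho⟩ := exists_wp (p := q) E
  obtain ⟨hq0, -⟩ := norm_p_lt (p := q)
  set T₀ := w ^ ((Fintype.card E - 1) / p) with hT₀
  have hQ1 : 1 < Fintype.card E := Fintype.one_lt_card
  have hTo : orderOf T₀ = p := by
    have hd : (Fintype.card E - 1) / p ≠ 0 := by
      have := Nat.div_pos (Nat.le_of_dvd (by omega) hN) hp.pos
      omega
    rw [hT₀, orderOf_pow_of_dvd hd (by rw [ho]; exact Nat.div_dvd_of_dvd hN), ho,
      Nat.div_div_self hN (by omega)]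
  refine ⟨T₀⁻¹, by rw [orderOf_inv, hTo], ?_⟩
  intro b hb0 hb
  have hG : ∀ c, 0 < c → c < p → ‖gaussSum (T₀⁻¹ ^ c) ψ‖ ^ p =
      ‖((q : ℕ) : PadicAlgCl q)‖ ^ expo q p F c := by
    intro c hc0 hc
    rw [inv_pow]
    exact norm_gauss_eq w ψ hψ hψc hw ho hF hN hF0 c hc0 hc
  have hpb : ¬ p ∣ 2 * b := by
    rw [hp.dvd_mul]
    rintro (h | h)
    · exact hp2 ((Nat.prime_dvd_prime_iff_eq hp Nat.prime_two).1 h)
    · exact absurd (Nat.le_of_dvd hb0 h) (by omega)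
  obtain ⟨b2, hb2⟩ : ∃ b2, b2 = (2 * b) % p := ⟨_, rfl⟩
  have hb20 : 0 < b2 := by
    rw [hb2]
    exact Nat.pos_of_ne_zero fun h => hpb (Nat.dvd_of_mod_eq_zero h)
  have hb2p : b2 < p := by
    rw [hb2]
    exact Nat.mod_lt _ hp.pos
  have hTT : T₀⁻¹ ^ b * T₀⁻¹ ^ b = T₀⁻¹ ^ b2 := by
    rw [← pow_add, ← two_mul, hb2]
    have h1 : orderOf T₀⁻¹ = p := by rw [orderOf_inv, hTo]
    have h2 := pow_mod_orderOf T₀⁻¹ (2 * b)
    rw [h1] at h2
    exact h2.symm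
  have hne : T₀⁻¹ ^ b * T₀⁻¹ ^ b ≠ 1 := by
    rw [hTT]
    intro h
    have h1 := orderOf_dvd_of_pow_eq_one h
    rw [orderOf_inv, hTo] at h1
    exact absurd (Nat.le_of_dvd hb20 h1) (by omega)
  have hJ := jacobiSum_mul_nontrivial hne ψ
  rw [hTT] at hJ
  have h1 : ‖gaussSum (T₀⁻¹ ^ b2) ψ‖ ^ p * ‖jacobiSum (T₀⁻¹ ^ b) (T₀⁻¹ ^ b)‖ ^ p =
      ‖gaussSum (T₀⁻¹ ^ b) ψ‖ ^ p * ‖gaussSum (T₀⁻¹ ^ b) ψ‖ ^ p := by
    rw [← mul_pow, ← mul_pow, ← norm_mul, ← norm_mul, hJ]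
  rw [hG b2 hb20 hb2p, hG b hb0 hb, ← pow_add] at h1
  have h2 : expo q p F b + expo q p F b = expo q p F b2 +
      ((Finset.range F).filter fun s => p < 2 * ((b * q ^ s) % p)).card * p := by
    unfold expo
    rw [← two_mul, mul_sum, card_filter, sum_mul, ← sum_add_distrib]
    refine sum_congr rfl fun s _ => ?_
    have h4 := two_mul_mod hp hp2 (b * q ^ s)
    have h5 : (b2 * q ^ s) % p = (2 * (b * q ^ s)) % p := by
      rw [hb2, Nat.mod_mul_mod, mul_assoc]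
    rw [h5]
    refine h4.trans ?_
    congr 1
    split_ifs
    · rw [one_mul]
    · rw [zero_mul]
  rw [h2, pow_add, pow_mul] at h1
  have h3 := mul_left_cancel₀ (pow_pos hq0 _).ne' h1
  exact (pow_left_inj₀ (norm_nonneg _) (pow_nonneg hq0.le _) hp.ne_zero).1 h3

end Pool.Agent.Y388.WQ.JN
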